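import Pool.Agent.H474R2.PG.Final

set_option autoImplicit false

/-!
# The error term in Conjecture F for `x^2+x+A` is not `o(log log N)`

From the long strings of composite values of an irreducible polynomial (`Pool.Agent.H474R2.PG.Final`); the passage to
the error term follows `Pool.Agent.Y867.Omega` (helper867, for `n^2+1`).
-/

namespace Pool.Agent.Y890.CF

open Polynomial Finset MeasureTheory

/-- the number of `0 ≤ x ≤ N` with `x^2+x+A` prime -/
def P (A N : ℕ) : ℕ := ((range (N + 1)).filter (fun x => (x ^ 2 + x + A).Prime)).card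

/-- the polynomial `x^2+x+A` -/
noncomputable def F (A : ℕ) : ℤ[X] := X ^ 2 + X + C (A : ℤ)

lemma F_eval (A : ℕ) (x : ℤ) : (F A).eval x = x ^ 2 + x + A := by simp [F]

lemma F_eq (A : ℕ) : F A = C 1 * X ^ 2 + C 1 * X + C (A : ℤ) := by simp [F]

lemma F_deg (A : ℕ) : (F A).natDegree = 2 := by
  rw [F_eq]
  exact natDegree_quadratic one_ne_zero

lemma F_monic (A : ℕ) : (F A).Monic := by
  rw [Monic, F_eq]
  exact leadingCoeff_quadratic one_ne_zero

lemma F_irr (A : ℕ) (hA : 1 ≤ A) : Irreducible (F A) := by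
  rw [(F_monic A).irreducible_iff_roots_eq_zero_of_degree_le_three (by rw [F_deg])
    (by rw [F_deg]; norm_num)]
  rw [Multiset.eq_zero_iff_forall_notMem]
  intro a ha
  have h := (mem_roots'.1 ha).2
  rw [IsRoot, F_eval] at h
  have hA' : (1 : ℤ) ≤ A := by exact_mod_cast hA
  nlinarith [sq_nonneg (2 * a + 1)]

/-- long intervals without primes `x^2+x+A` -/
theorem gap (A : ℕ) (hA : 1 ≤ A) : ∃ c : ℝ, 0 < c ∧ ∃ Y₀ : ℝ, ∀ Y : ℝ, Y₀ ≤ Y → ∀ M : ℕ, Y ≤ M →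
    ∃ x : ℕ, M < x ∧ (x : ℝ) + c * Real.log Y * Real.log (Real.log Y) ≤ M + Y ∧
      ∀ k : ℕ, (k : ℝ) ≤ c * Real.log Y * Real.log (Real.log Y) → ¬ ((x + k) ^ 2 + (x + k) + A).Prime := by
  obtain ⟨c, hc, Y₀, h⟩ := Pool.Agent.H474R2.PG.composite_strings (F A) (F_irr A hA) (by rw [F_deg]; norm_num)
    (by rw [(F_monic A).leadingCoeff]; norm_num)
  refine ⟨c, hc, Y₀, fun Y hY M hM => ?_⟩
  obtain ⟨x, hx, hx2, hk⟩ := h Y hY M (by exact_mod_cast hM)
  lift x to ℕ using (by have := Int.natCast_nonneg M; omega)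
  refine ⟨x, by exact_mod_cast hx, by exact_mod_cast hx2, fun k hk2 hp => ?_⟩
  obtain ⟨p, hp1, -, hp3, hp4⟩ := hk k hk2
  rw [F_eval] at hp3 hp4
  have e : ((x : ℤ) + (k : ℤ)) ^ 2 + ((x : ℤ) + (k : ℤ)) + (A : ℤ) = (((x + k) ^ 2 + (x + k) + A : ℕ) : ℤ) := by
    push_cast; ring
  rw [e] at hp3 hp4
  have h1 : p ∣ (x + k) ^ 2 + (x + k) + A := by exact_mod_cast hp3
  have h2 : p < (x + k) ^ 2 + (x + k) + A := by exact_mod_cast hp4
  rcases (Nat.dvd_prime hp).1 h1 with h3 | h3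
  · exact hp1.one_lt.ne' h3
  · omega

lemma P_eq_of_gap {A a b : ℕ} (hab : a ≤ b) (h : ∀ n, a < n → n ≤ b → ¬ (n ^ 2 + n + A).Prime) :
    P A b = P A a := by
  unfold P
  congr 1
  ext n
  simp only [mem_filter, mem_range]
  constructor
  · rintro ⟨h1, h3⟩
    refine ⟨?_, h3⟩
    by_contra h4
    exact h n (by omega) (by omega) h3
  · rintro ⟨h1, h3⟩
    exact ⟨by omega, h3⟩

/-- the integral of `2 / log (t^2+t+A)` -/
noncomputable def L (A : ℕ) (x : ℝ) : ℝ := 2 * ∫ t in (0 : ℝ)..x, 1 / Real.log (t ^ 2 + t + A)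

lemma L_int {A : ℕ} (hA : 3 ≤ A) {a b : ℝ} (ha : 0 ≤ a) (hb : 0 ≤ b) :
    IntervalIntegrable (fun t : ℝ => 1 / Real.log (t ^ 2 + t + A)) volume a b := by
  apply ContinuousOn.intervalIntegrable
  intro t ht
  have hA' : (3 : ℝ) ≤ A := by exact_mod_cast hA
  have ht2 : 0 ≤ t := by
    rcases le_total a b with h | h
    · rw [Set.uIcc_of_le h] at ht; linarith [ht.1]
    · rw [Set.uIcc_of_ge h] at ht; linarith [ht.1]
  have hpos : 1 < t ^ 2 + t + A := by nlinarith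
  have hl : 0 < Real.log (t ^ 2 + t + A) := Real.log_pos hpos
  apply ContinuousAt.continuousWithinAt
  have h1 : ContinuousAt (fun t : ℝ => t ^ 2 + t + A) t := by fun_prop
  exact continuousAt_const.div (h1.log (by linarith)) hl.ne'

lemma L_sub {A : ℕ} (hA : 3 ≤ A) {a b : ℝ} (ha : 0 ≤ a) (hab : a ≤ b) :
    2 * ((b - a) / Real.log (b ^ 2 + b + A)) ≤ L A b - L A a := by
  unfold L
  have hA' : (3 : ℝ) ≤ A := by exact_mod_cast hA
  rw [← mul_sub, intervalIntegral.integral_interval_sub_left (L_int hA le_rfl (ha.trans hab)) (L_int hA le_rfl ha)]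
  have h1 : (b - a) / Real.log (b ^ 2 + b + A) = ∫ _t in a..b, 1 / Real.log (b ^ 2 + b + A) := by
    rw [intervalIntegral.integral_const, smul_eq_mul]; ring
  rw [h1]
  refine mul_le_mul_of_nonneg_left ?_ (by norm_num)
  apply intervalIntegral.integral_mono_on hab (by simp) (L_int hA ha (ha.trans hab))
  intro t ht
  have ht0 : 0 ≤ t := ha.trans ht.1
  have hl : 0 < Real.log (t ^ 2 + t + A) := Real.log_pos (by nlinarith)
  exact one_div_le_one_div_of_le hl (Real.log_le_log (by nlinarith) (by nlinarith [ht.2]))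

/-- **Lower bound for the error term.** -/
theorem omega (A : ℕ) (hA : 3 ≤ A) : ∃ c : ℝ, 0 < c ∧ ∃ Y₀ : ℝ, ∀ (C Y : ℝ) (x : ℕ), 0 ≤ C → Y₀ ≤ Y → Y ≤ x →
    ∃ N : ℕ, x ≤ N ∧ (N : ℝ) ≤ x + Y ∧
      c * C * (Real.log Y / Real.log x) * Real.log (Real.log Y) ≤ |(P A N : ℝ) - C * L A N| := by
  obtain ⟨c, hc, Y₀, h⟩ := gap A (by omega)
  refine ⟨c / 5, by positivity, max Y₀ (A + 3), fun C Y x hC hY hYx => ?_⟩
  have hYA : (A : ℝ) + 3 ≤ Y := (le_max_right _ _).trans hY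
  have hA0 : (0 : ℝ) ≤ A := Nat.cast_nonneg _
  have hY3 : (3 : ℝ) ≤ Y := by linarith
  obtain ⟨y, hy1, hy2, hy3⟩ := h Y ((le_max_left _ _).trans hY) x hYx
  have hlogY : 1 < Real.log Y := by
    rw [Real.lt_log_iff_exp_lt (by linarith)]
    linarith [Real.exp_one_lt_d9]
  have hllY : 0 < Real.log (Real.log Y) := Real.log_pos hlogY
  set H : ℝ := c * Real.log Y * Real.log (Real.log Y) with hH
  have hH0 : 0 < H := by positivity
  have hx3 : (3 : ℝ) ≤ x := hY3.trans hYx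
  have hxA : (A : ℝ) ≤ x := by linarith
  set K : ℕ := ⌊H⌋₊ with hK
  have hK1 : (K : ℝ) ≤ H := Nat.floor_le hH0.le
  have hK2 : H < K + 1 := Nat.lt_floor_add_one H
  have hPab : P A (y + K) = P A (y - 1) := by
    apply P_eq_of_gap (by omega)
    intro n hn1 hn2
    have h1 : n = y + (n - y) := by omega
    rw [h1]
    apply hy3
    have h2 : n - y ≤ K := by omega
    have h3 : ((n - y : ℕ) : ℝ) ≤ K := by exact_mod_cast h2
    linarith
  have hya : ((y - 1 : ℕ) : ℝ) = y - 1 := by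
    rw [Nat.cast_sub (by omega)]; simp
  have hyx : (x : ℝ) ≤ ((y - 1 : ℕ) : ℝ) := by
    have : x ≤ y - 1 := by omega
    exact_mod_cast this
  have hyb : ((y + K : ℕ) : ℝ) ≤ x + Y := by
    push_cast; linarith
  have hb1 : ((y + K : ℕ) : ℝ) ≤ 2 * x := by linarith
  have hb0 : (0 : ℝ) ≤ ((y + K : ℕ) : ℝ) := Nat.cast_nonneg _
  have hb2 : ((y + K : ℕ) : ℝ) ^ 2 + ((y + K : ℕ) : ℝ) + A ≤ (x : ℝ) ^ 4 := by
    have h1 : ((y + K : ℕ) : ℝ) ^ 2 ≤ (2 * x) ^ 2 := pow_le_pow_left₀ hb0 hb1 2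
    have h2 : (3 : ℝ) ^ 2 ≤ (x : ℝ) ^ 2 := pow_le_pow_left₀ (by norm_num) hx3 2
    nlinarith [sq_nonneg ((x : ℝ) ^ 2)]
  have hab : ((y - 1 : ℕ) : ℝ) ≤ ((y + K : ℕ) : ℝ) := by
    have : y - 1 ≤ y + K := by omega
    exact_mod_cast this
  have hlx : 0 < Real.log x := Real.log_pos (by linarith)
  have hbx : (x : ℝ) ≤ ((y + K : ℕ) : ℝ) := hyx.trans hab
  have hFb : 1 < ((y + K : ℕ) : ℝ) ^ 2 + ((y + K : ℕ) : ℝ) + A := by nlinarith
  have hlogb : Real.log (((y + K : ℕ) : ℝ) ^ 2 + ((y + K : ℕ) : ℝ) + A) ≤ 4 * Real.log x := by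
    have h1 := Real.log_le_log (by linarith) hb2
    rw [Real.log_pow] at h1
    exact_mod_cast h1
  have hlogb0 : 0 < Real.log (((y + K : ℕ) : ℝ) ^ 2 + ((y + K : ℕ) : ℝ) + A) := Real.log_pos hFb
  have hL := L_sub hA (a := ((y - 1 : ℕ) : ℝ)) (b := ((y + K : ℕ) : ℝ)) (by linarith) hab
  have hd : H ≤ ((y + K : ℕ) : ℝ) - ((y - 1 : ℕ) : ℝ) := by
    rw [hya]; push_cast; linarith
  have hL2 : H / (2 * Real.log x) ≤ L A ((y + K : ℕ) : ℝ) - L A ((y - 1 : ℕ) : ℝ) := by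
    refine le_trans ?_ hL
    rw [← mul_div_assoc, div_le_div_iff₀ (by positivity) hlogb0]
    nlinarith
  have htar : c / 5 * C * (Real.log Y / Real.log x) * Real.log (Real.log Y) =
      C * (H / (2 * Real.log x)) * (2 / 5) := by
    rw [hH]; field_simp
  have hdiff : C * (H / (2 * Real.log x)) ≤
      ((P A (y - 1) : ℝ) - C * L A ((y - 1 : ℕ) : ℝ)) - ((P A (y + K) : ℝ) - C * L A ((y + K : ℕ) : ℝ)) := by
    rw [hPab]
    nlinarith [mul_le_mul_of_nonneg_left hL2 hC]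
  have hnn : 0 ≤ C * (H / (2 * Real.log x)) := by positivity
  by_cases hcase : C * (H / (2 * Real.log x)) * (2 / 5) ≤ |(P A (y + K) : ℝ) - C * L A ((y + K : ℕ) : ℝ)|
  · refine ⟨y + K, ?_, hyb, ?_⟩
    · omega
    · rw [htar]; exact hcase
  · refine ⟨y - 1, by omega, by linarith, ?_⟩
    rw [htar]
    push Not at hcase
    have h1 := neg_abs_le ((P A (y + K) : ℝ) - C * L A ((y + K : ℕ) : ℝ))
    have h2 := le_abs_self ((P A (y - 1) : ℝ) - C * L A ((y - 1 : ℕ) : ℝ))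
    linarith

end Pool.Agent.Y890.CF
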